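import Pool.Agent.J6H46.DG.Two
import Pool.Agent.J6H22.DG.Stab
import Pool.Agent.J6H3.DG.Syl
import Pool.Agent.J6H61.DG.ExG

/-! # The modules of project DG -/

namespace Pool.Agent.J6H84.DG

theorem two : S_Two := Pool.Agent.J6H46.DG.Two.main

theorem stab : S_Stab := Pool.Agent.J6H22.DG.Stab.main

theorem syl : S_Syl := Pool.Agent.J6H3.DG.Syl.main

theorem exG : S_ExG := Pool.Agent.J6H61.DG.ExG.main

end Pool.Agent.J6H84.DG
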