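import Pool.Agent.J6H84.TS.Stm

/-!
# Project DG (hard problem MP_c7a479_co): automorphism groups of large variational sets, all orders

Aim: for all `n ≥ 2`, `m ≥ 2` and every family of `k` cubes of order `n`, any `m` of which form a variational
cube, with `2 k > n + 2 m - 2` and `k ≥ m + 1`: an automorphism `≠ 1` fixing every cube has at most one
fixed cell, and the order of the group of these automorphisms divides `n ^ m (n - 1)` (sharp: linear sets).

Modules: `S_Two`, `S_Stab`, `S_Syl`, `S_ExG`; complete proofs below.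
-/

set_option autoImplicit false

namespace Pool.Agent.J6H84.DG

open Finset Pool.Agent.H430R2.PermCubes Pool.Agent.J6H84.LM Pool.Agent.J6H84.TS

/-- the number of cubes of the linear sets (`Pool.Agent.Y347.VL.value`, repeated here) -/
def val (m q : ℕ) : ℕ :=
  if m = 2 then q - 1
  else if q = 2 then m - 1
  else if q ≤ m then m + 1
  else if q % 2 = 0 ∧ (m = 3 ∨ m + 1 = q) then q + 2
  else q + 1

/-- **Module TWO.**

Proof.  Suppose `σ x = x`, `σ y = y`, `x ≠ y`; show `σ = 1`.  Let `τ i` be as in `Aut C 1 σ`: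
`C i (σ z) = τ i (C i z)`, `F i = {s | τ i s = s}`, `f i = |F i|`.  If `z` is a fixed cell then `C i z ∈ F i` for all
`i`.  (a) Conversely if `C i z ∈ F i` for all `i` in a set `M` with `m` elements, then `σ z = z`
(`IsArray.eq_of_agree`).
(b) By `IsArray` the fixed cells correspond bijectively to the tuples in `∏ i ∈ M, F i`, so their number is
`∏ i ∈ M, f i`, for every set `M` of `m` indices.  All `f i ≥ 1` (`C i x ∈ F i`).  For `i ≠ j` take `M'` with `m - 1`
elements without `i`, `j` (`k ≥ m + 1`): `M' ∪ {i}` and `M' ∪ {j}` give `f i = f j =: f`.  `f ≥ 2`: `x`, `y` differ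
in some cube.
(c) If `f = n` then every cell is fixed, `σ = 1`.  Let `f < n`.
(d) The fixed cells with the cubes `C i` and symbols `F i` (`|F i| = f`) are an array: for bijections
`F i ≃ Fin f` and `(Fin m → Fin f) ≃` fixed cells (there are `f ^ m`), any `m` cubes give a bijection.  So
`IsArray m f k C'` and `IsArray.le_general` give `k ≤ f + m - 1`.
(e) `2 f ≤ n`: take different indices `a, b, c` and a set `M0` of `m - 2` further indices (`k ≥ m + 1`), and
`s ∉ F a`.  For `t ∈ F b` let `z t` be the cell with `C i (z t) = C i x` (`i ∈ M0`), `C a (z t) = s`,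
`C b (z t) = t`.  Then `C c (z t) ∉ F c` (otherwise `z t` is fixed by (a) with `M0 ∪ {b, c}`, so
`s = C a (z t) ∈ F a`), and `t ↦ C c (z t)` is injective (the cell is determined by `M0 ∪ {a, c}`).  So
`f ≤ n - f`.
(d) and (e): `2 k ≤ n + 2 m - 2`, contradiction. -/
def S_Two : Prop := ∀ (m n k : ℕ) (C : Fin k → (Fin m → Fin n) → Fin n), 2 ≤ m → 2 ≤ n →
  m + 1 ≤ k → n + 2 * m < 2 * k + 2 → IsArray m n k C →
  ∀ (σ : Equiv.Perm (Fin m → Fin n)), Aut C 1 σ → ∀ x y, σ x = x → σ y = y → x ≠ y → σ = 1

/-- **Module STAB.**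

Proof.  Let `i0 : Fin k` (`k ≥ m + 1 ≥ 1`) and `s0 = C i0 x`.  For `σ ∈ P` the permutation `τ` of the symbols with
`C i0 (σ z) = τ (C i0 z)` is unique (`C i0` is surjective; see `Pool.Agent.J6H68.TS.Lab.surj`) and this gives an
action of `P` on `Fin n`; all elements of `P` fix `s0`.  If `σ ∈ P` fixes a symbol `s ≠ s0`, let `M` be a set of `m`
indices containing `i0` and `z` the cell with `C i0 z = s`, `C i z = C i x` for `i ∈ M`, `i ≠ i0`.  Then
`C i (σ z) = C i z` for `i ∈ M` (for `i ≠ i0`: `C i (σ z) = τ i (C i z) = τ i (C i x) = C i (σ x) = C i x = C i z`),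
so `σ z = z`, `z ≠ x`, so `σ = 1` by the hypothesis `hTwo`.  So `P` acts freely on the `n - 1` symbols `≠ s0`, so
`card P` divides `n - 1` (all orbits have `card P` elements). -/
def S_Stab : Prop := ∀ (m n k : ℕ) (C : Fin k → (Fin m → Fin n) → Fin n), 1 ≤ m → 2 ≤ n →
  m + 1 ≤ k → IsArray m n k C →
  (∀ (σ : Equiv.Perm (Fin m → Fin n)), Aut C 1 σ → ∀ x y, σ x = x → σ y = y → x ≠ y → σ = 1) →
  ∀ (P : Subgroup (Equiv.Perm (Fin m → Fin n))) (x : Fin m → Fin n),
    (∀ σ ∈ P, Aut C 1 σ ∧ σ x = x) → Nat.card P ∣ n - 1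

/-- **Module SYL** (pure group theory: a permutation group of a set with `N` points, all of whose point
stabilizers have order dividing `n - 1`, `N` a power of `n`).

Proof.  Show that every prime power `l ^ j` dividing `card G` divides `n ^ m * (n - 1)`
(`Nat.dvd_iff_prime_pow_dvd_dvd` or the factorization).  There is a subgroup `S ≤ G` of order `l ^ j`
(`Sylow.exists_subgroup_card_pow_prime`, image in `Perm X`).  If `l ∣ n`: for a point `x` the stabilizer of `x` in
`S` has order a power of `l` dividing `n - 1`, so it is `1` (`l ∤ n - 1`, as `n - 1` and `n` are coprime); so `S` acts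
freely and `l ^ j = card S` divides `card X = n ^ m`.  If `l ∤ n`: `S` is an `l`-group and `l ∤ card X`, so `S` has a
fixed point `x` (`IsPGroup.nonempty_fixed_point_of_prime_not_dvd_card`), so `hstab S x` gives
`l ^ j ∣ n - 1`. -/
def S_Syl : Prop := ∀ (X : Type) [Fintype X] [DecidableEq X] (n m : ℕ), 2 ≤ n → 1 ≤ m →
  Fintype.card X = n ^ m → ∀ G : Subgroup (Equiv.Perm X),
  (∀ (P : Subgroup (Equiv.Perm X)) (x : X), P ≤ G → (∀ σ ∈ P, σ x = x) → Nat.card P ∣ n - 1) →
  Nat.card G ∣ n ^ m * (n - 1)

/-- **Module EXG**: the linear sets (import the start file `Pool.Agent.Y347.VL.Value`; see also the module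
`Pool.Agent.J6H75.TS.Ex` for the prime case).

Proof.  By `Pool.Agent.Y347.VL.exists_value` (`F = K`, `q = card K`), `unitSet_iff_linOver`, `mem_sizes_iff` there is a
variational set `C` of `value m q = val m q` (by `rfl`) cubes with `IsLinear K m q _ C`: `s j (C j x) = ∑ i, a j i * t i (x i)`, bijections
`t i, s j : Fin q ≃ K`.  For `c : Kˣ` and `v : Fin m → K` let `g (c, v) x = fun i => (t i)⁻¹ (c * t i (x i) + v i)`, a
permutation of the cells; `s j (C j (g x)) = c * s j (C j x) + ∑ i, a j i * v i`, so `Aut C 1 (g (c, v))`.  These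
permutations form a subgroup `P` (closed under products and inverses), and `(c, v) ↦ g (c, v)` is injective
(`m ≥ 1`), so `card P = q ^ m * (q - 1)`. -/
def S_ExG : Prop := ∀ (K : Type) [Field K] [Fintype K] (m q : ℕ), Fintype.card K = q → 2 ≤ m →
  ∃ C : Fin (Pool.Agent.J6H84.DG.val m q) → (Fin m → Fin q) → Fin q,
    IsVariationalSet m q (Pool.Agent.J6H84.DG.val m q) C ∧
    ∃ P : Subgroup (Equiv.Perm (Fin m → Fin q)), (∀ σ ∈ P, Aut C 1 σ) ∧
      Nat.card P = q ^ m * (q - 1)

end Pool.Agent.J6H84.DG
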